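import Mathlib
import Pool.Agent.H.MP_17c4bf_an.B

set_option autoImplicit false

namespace Pool.Agent.H.MP_e733ef_an

open Set Filter Topology PiNat Pool.Agent.H.MP_17c4bf_an

section SB
variable {A B I : Type} [MetricSpace A] [MetricSpace B]

def Nb (p : A × (I → B)) (F : Finset I) (r : ℝ) : Set (A × (I → B)) :=
  {z | dist z.1 p.1 ≤ r ∧ ∀ i ∈ F, dist (z.2 i) (p.2 i) ≤ r}

def No (p : A × (I → B)) (F : Finset I) (r : ℝ) : Set (A × (I → B)) :=
  {z | dist z.1 p.1 < r ∧ ∀ i ∈ F, dist (z.2 i) (p.2 i) < r}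

theorem no_open (p : A × (I → B)) (F : Finset I) (r : ℝ) : IsOpen (No p F r) := by
  have : No p F r = {z | dist z.1 p.1 < r} ∩ ⋂ i ∈ F, {z | dist (z.2 i) (p.2 i) < r} := by
    ext z; simp [No]
  rw [this]
  exact (isOpen_lt (by fun_prop) continuous_const).inter
    (isOpen_biInter_finset fun i _ => isOpen_lt (by fun_prop) continuous_const)

theorem no_sub (p : A × (I → B)) (F : Finset I) (r : ℝ) : No p F r ⊆ Nb p F r :=
  fun _ h => ⟨h.1.le, fun i hi => (h.2 i hi).le⟩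

theorem no_self (p : A × (I → B)) (F : Finset I) {r : ℝ} (hr : 0 < r) : p ∈ No p F r :=
  ⟨by simpa using hr, fun _ _ => by simpa using hr⟩

theorem nb_sub {O : Set (A × (I → B))} {p : A × (I → B)} (hO : O ∈ 𝓝 p) :
    ∃ F r, 0 < r ∧ Nb p F r ⊆ O := by
  rw [nhds_prod_eq, mem_prod_iff] at hO
  obtain ⟨s, hs, t, ht, h⟩ := hO
  rw [nhds_pi, mem_pi'] at ht
  obtain ⟨F, u, hu, h1⟩ := ht
  have h2 : ∀ᶠ r in 𝓝[>] (0 : ℝ), Metric.closedBall p.1 r ⊆ s :=
    (eventually_closedBall_subset hs).filter_mono nhdsWithin_le_nhds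
  have h3 : ∀ᶠ r in 𝓝[>] (0 : ℝ), ∀ i ∈ F, Metric.closedBall (p.2 i) r ⊆ u i :=
    (eventually_all_finset F).2 fun i _ =>
      (eventually_closedBall_subset (hu i)).filter_mono nhdsWithin_le_nhds
  obtain ⟨r, ⟨h4, h5⟩, hr⟩ := ((h2.and h3).and self_mem_nhdsWithin).exists
  exact ⟨F, r, hr, fun z hz => h ⟨h4 hz.1, h1 fun i hi => h5 i hi (hz.2 i hi)⟩⟩

theorem lim_ball {Y : Type} [MetricSpace Y] [CompleteSpace Y] (y : ℕ → Y) (r : ℕ → ℝ) (N : ℕ)
    (hr : Tendsto r atTop (𝓝 0)) (h : ∀ n m, N ≤ n → n ≤ m → dist (y m) (y n) ≤ r n) :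
    ∃ a, ∀ n, N ≤ n → dist a (y n) ≤ r n := by
  have hc : CauchySeq y := by
    refine Metric.cauchySeq_iff'.2 fun ε hε => ?_
    obtain ⟨n, h1, h2⟩ := ((hr.eventually (gt_mem_nhds hε)).and (eventually_ge_atTop N)).exists
    exact ⟨n, fun m hm => (h n m h2 hm).trans_lt h1⟩
  obtain ⟨a, ha⟩ := cauchySeq_tendsto_of_complete hc
  refine ⟨a, fun n hn => le_of_tendsto (ha.dist tendsto_const_nhds) ?_⟩
  filter_upwards [eventually_ge_atTop n] with m hm using h n m hn hm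

theorem strong_baire [CompleteSpace A] [CompleteSpace B] [Nonempty I] [Nonempty B]
    (T : ℕ → Set (A × (I → B))) (ho : ∀ n, IsOpen (T n)) (hd : ∀ n, Dense (T n))
    {U : Set (A × (I → B))} (hU : IsOpen U) (hne : U.Nonempty) :
    ∃ (p : A × (I → B)) (c : ℕ → I), ∀ z : A × (I → B), z.1 = p.1 → (∀ n, z.2 (c n) = p.2 (c n)) →
      z ∈ U ∧ ∀ n, z ∈ T n := by
  classical
  let S := {s : (A × (I → B)) × Finset I × ℝ // 0 < s.2.2}
  have step : ∀ (n : ℕ) (s : S), ∃ s' : S, s.1.2.1 ⊆ s'.1.2.1 ∧ s'.1.2.2 ≤ 1 / ((n : ℝ) + 1) ∧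
      Nb s'.1.1 s'.1.2.1 s'.1.2.2 ⊆ T n ∩ Nb s.1.1 s.1.2.1 s.1.2.2 := by
    rintro n ⟨⟨p, F, r⟩, hr⟩
    obtain ⟨p', h1, h2⟩ := (hd n).inter_open_nonempty _ (no_open p F r) ⟨p, no_self p F hr⟩
    obtain ⟨F', r', hr', h3⟩ := nb_sub (((ho n).inter (no_open p F r)).mem_nhds ⟨h2, h1⟩)
    refine ⟨⟨(p', F ∪ F', min r' (1 / ((n : ℝ) + 1))), lt_min hr' Nat.one_div_pos_of_nat⟩,
      Finset.subset_union_left, min_le_right _ _, fun z hz => ?_⟩
    have := h3 (show z ∈ Nb p' F' r' from ⟨hz.1.trans (min_le_left _ _), fun i hi =>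
      (hz.2 i (Finset.mem_union_right _ hi)).trans (min_le_left _ _)⟩)
    exact ⟨this.1, no_sub _ _ _ this.2⟩
  choose nx h1 h2 h3 using step
  obtain ⟨p₀, hp₀⟩ := hne
  obtain ⟨F₀, r₀, hr₀, h0⟩ := nb_sub (hU.mem_nhds hp₀)
  let s : ℕ → S := fun n => Nat.rec ⟨(p₀, F₀, r₀), hr₀⟩ nx n
  have hs : ∀ n, s (n + 1) = nx n (s n) := fun n => rfl
  have hF : Monotone fun n => (s n).1.2.1 := monotone_nat_of_le_succ fun n => h1 n (s n)
  have hN : Antitone fun n => Nb (s n).1.1 (s n).1.2.1 (s n).1.2.2 :=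
    antitone_nat_of_succ_le fun n => (h3 n (s n)).trans inter_subset_right
  have hm : ∀ n m, n ≤ m → (s m).1.1 ∈ Nb (s n).1.1 (s n).1.2.1 (s n).1.2.2 := fun n m h =>
    hN h (no_sub _ _ _ (no_self _ _ (s m).2))
  have hr : Tendsto (fun n => (s n).1.2.2) atTop (𝓝 0) := by
    rw [← tendsto_add_atTop_iff_nat 1]
    exact squeeze_zero (fun n => (s (n + 1)).2.le) (fun n => h2 n (s n))
      tendsto_one_div_add_atTop_nhds_zero_nat
  obtain ⟨a, ha⟩ := lim_ball (fun n => (s n).1.1.1) _ 0 hr fun n m _ h => (hm n m h).1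
  have hb : ∀ i, ∃ b, ∀ n, i ∈ (s n).1.2.1 → dist b ((s n).1.1.2 i) ≤ (s n).1.2.2 := by
    intro i
    by_cases hi : ∃ n, i ∈ (s n).1.2.1
    · obtain ⟨b, hb⟩ := lim_ball (fun n => (s n).1.1.2 i) _ (Nat.find hi) hr
        fun n m h4 h => (hm n m h).2 i (hF h4 (Nat.find_spec hi))
      exact ⟨b, fun n hn => hb n (Nat.find_min' hi hn)⟩
    · exact ⟨Classical.arbitrary B, fun n hn => absurd ⟨n, hn⟩ hi⟩
  choose b hb using hb
  obtain ⟨c, hc⟩ := countable_iff_exists_subset_range.1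
    (countable_iUnion fun n => ((s n).1.2.1).countable_toSet)
  refine ⟨(a, b), c, fun z h4 h5 => ?_⟩
  have h6 : ∀ n, z ∈ Nb (s n).1.1 (s n).1.2.1 (s n).1.2.2 := by
    intro n
    refine ⟨h4 ▸ ha n n.zero_le, fun i hi => ?_⟩
    obtain ⟨k, rfl⟩ := hc (mem_iUnion.2 ⟨n, hi⟩)
    rw [h5]; exact hb _ n hi
  exact ⟨h0 (h6 0), fun n => (h3 n (s n) (h6 (n + 1))).1⟩

end SB

variable {X : Type} [NormedAddCommGroup X] [NormedSpace ℝ X]

theorem li_dense_fin (hX : ¬ FiniteDimensional ℝ X) (m : ℕ) :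
    Dense {v : Fin m → X | LinearIndependent ℝ v} := by
  induction m with
  | zero => exact fun v => subset_closure linearIndependent_empty_type
  | succ m ih =>
    refine Metric.dense_iff.2 fun v r hr => ?_
    obtain ⟨w, h1, h2⟩ := Metric.dense_iff.1 ih (Fin.tail v) r hr
    obtain ⟨x, h3, h4⟩ : ∃ x ∈ Metric.ball (v 0) r, x ∉ Submodule.span ℝ (range w) := by
      by_contra hc
      push Not at hc
      have := (Submodule.span ℝ (range w)).eq_top_of_nonempty_interior'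
        ⟨v 0, mem_interior.2 ⟨_, hc, Metric.isOpen_ball, Metric.mem_ball_self hr⟩⟩
      exact hX ⟨this ▸ Submodule.fg_span (finite_range w)⟩
    refine ⟨Fin.cons x w, ?_, linearIndependent_finCons.2 ⟨h2, h4⟩⟩
    rw [Metric.mem_ball, dist_pi_lt_iff hr] at h1 ⊢
    intro i
    refine Fin.cases ?_ (fun j => ?_) i
    · simpa using h3
    · simpa [Fin.tail] using h1 j

theorem li_dense (hX : ¬ FiniteDimensional ℝ X) (ι : Type) [Fintype ι] :
    Dense {v : ι → X | LinearIndependent ℝ v} := by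
  let e := Fintype.equivFin ι
  refine Metric.dense_iff.2 fun v r hr => ?_
  obtain ⟨w, h1, h2⟩ := Metric.dense_iff.1 (li_dense_fin hX _) (v ∘ e.symm) r hr
  refine ⟨w ∘ e, ?_, LinearIndependent.comp h2 e e.injective⟩
  rw [Metric.mem_ball, dist_pi_lt_iff hr] at h1 ⊢
  intro i
  simpa using h1 (e i)

theorem unif_cyl {Z : Type} [MetricSpace Z] (φ : C(Om, Z)) {r : ℝ} (hr : 0 < r) :
    ∀ᶠ N in atTop, ∀ a b, a ∈ cylinder b N → dist (φ a) (φ b) < r := by
  have h1 : ∀ b, ∃ n, ∀ a ∈ cylinder b n, dist (φ a) (φ b) < r / 2 := fun b =>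
    cyl_basis b (φ.continuous.continuousAt.eventually_mem
      (Metric.ball_mem_nhds (φ b) (by positivity : 0 < r / 2)))
  choose n hn using h1
  obtain ⟨F, hF⟩ := isCompact_univ.elim_finite_subcover (fun b => cylinder b (n b))
    (fun b => (cyl_clopen b _).isOpen) (fun b _ => mem_iUnion.2 ⟨b, self_mem_cylinder b _⟩)
  filter_upwards [eventually_ge_atTop (F.sup n)] with N hN a b hab
  obtain ⟨c, hc, hb⟩ := mem_iUnion₂.1 (hF (mem_univ b))
  have ha : a ∈ cylinder c (n c) := fun i hi =>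
    (hab i (hi.trans_le ((Finset.le_sup hc).trans hN))).trans (hb i hi)
  have := dist_triangle_right (φ a) (φ b) (φ c)
  linarith [hn c a ha, hn c b hb]

variable {I : Type}

def evl (Φ : C(Om, X) × (I → C(Om, ℝ))) (σ : Om) : X × (I → ℝ) := (Φ.1 σ, fun i => Φ.2 i σ)

theorem evl_cont : Continuous fun z : (C(Om, X) × (I → C(Om, ℝ))) × Om => evl z.1 z.2 := by
  unfold evl
  fun_prop

noncomputable def stp (N : ℕ) (v : (Fin N → Bool) → X × (I → ℝ)) : C(Om, X) × (I → C(Om, ℝ)) :=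
  (⟨fun a => (v (rs N a)).1, (continuous_of_discreteTopology (f := fun s => (v s).1)).comp
    (rs_cont N)⟩, fun i => ⟨fun a => (v (rs N a)).2 i,
      (continuous_of_discreteTopology (f := fun s => (v s).2 i)).comp (rs_cont N)⟩)

theorem step_dense (n : ℕ) (D : ∀ N, Set ((Fin N → Bool) → X × (I → ℝ))) (hD : ∀ N, Dense (D N)) :
    Dense {Φ : C(Om, X) × (I → C(Om, ℝ)) | ∃ N, n ≤ N ∧ ∃ v ∈ D N, Φ = stp N v} := by
  refine dense_iff_inter_open.2 fun O hO ⟨Φ, hΦ⟩ => ?_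
  obtain ⟨F, r, hr, h1⟩ := nb_sub (hO.mem_nhds hΦ)
  obtain ⟨N, ⟨h2, h3⟩, h4⟩ := (((unif_cyl Φ.1 (half_pos hr)).and ((eventually_all_finset F).2
    fun i _ => unif_cyl (Φ.2 i) (half_pos hr))).and (eventually_ge_atTop n)).exists
  obtain ⟨v, h5, h6⟩ := (hD N).inter_open_nonempty
    (Set.pi univ fun s => No (evl Φ (ex s)) F (r / 2))
    (isOpen_set_pi finite_univ fun s _ => no_open _ _ _)
    ⟨fun s => evl Φ (ex s), fun s _ => no_self _ _ (half_pos hr)⟩
  refine ⟨stp N v, h1 ⟨?_, fun i hi => ?_⟩, N, h4, v, h6, rfl⟩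
  · refine (ContinuousMap.dist_le hr.le).2 fun a => ?_
    have h7 : dist (v (rs N a)).1 (Φ.1 (ex (rs N a))) < r / 2 := (h5 _ (mem_univ _)).1
    have h8 := h2 _ _ (ex_rs N a)
    have := dist_triangle (v (rs N a)).1 (Φ.1 (ex (rs N a))) (Φ.1 a)
    change dist (v (rs N a)).1 _ ≤ r
    linarith
  · refine (ContinuousMap.dist_le hr.le).2 fun a => ?_
    have h7 : dist ((v (rs N a)).2 i) (Φ.2 i (ex (rs N a))) < r / 2 := (h5 _ (mem_univ _)).2 i hi
    have h8 := h3 i hi _ _ (ex_rs N a)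
    have := dist_triangle ((v (rs N a)).2 i) (Φ.2 i (ex (rs N a))) (Φ.2 i a)
    change dist ((v (rs N a)).2 i) _ ≤ r
    linarith

theorem all_open {W : Set (X × (I → ℝ))} (hW : IsOpen W) :
    IsOpen {Φ : C(Om, X) × (I → C(Om, ℝ)) | ∀ σ, evl Φ σ ∈ W} := by
  refine isOpen_iff_mem_nhds.2 fun Φ hΦ => ?_
  have := isCompact_univ.eventually_forall_of_forall_eventually (x₀ := Φ)
    (P := fun (Ψ : C(Om, X) × (I → C(Om, ℝ))) (σ : Om) => evl Ψ σ ∈ W) fun σ _ =>
      evl_cont.continuousAt.eventually_mem (hW.mem_nhds (hΦ σ))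
  filter_upwards [this] with Ψ h σ using h σ (mem_univ _)

theorem li_open (n m : ℕ) : IsOpen {Φ : C(Om, X) × (I → C(Om, ℝ)) | ∀ τ : Fin m → Om,
    τ ∈ {τ : Fin m → Om | Function.Injective fun j => rs n (τ j)} →
      LinearIndependent ℝ fun j => Φ.1 (τ j)} := by
  have hK : IsCompact {τ : Fin m → Om | Function.Injective fun j => rs n (τ j)} := by
    refine IsClosed.isCompact ?_
    exact (isClosed_discrete {u : Fin m → Fin n → Bool | Function.Injective u}).preimage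
      (f := fun (τ : Fin m → Om) j => rs n (τ j))
      (continuous_pi fun j => (rs_cont n).comp (continuous_apply j))
  refine isOpen_iff_mem_nhds.2 fun Φ hΦ => ?_
  refine hK.eventually_forall_of_forall_eventually
    (P := fun (Ψ : C(Om, X) × (I → C(Om, ℝ))) (τ : Fin m → Om) =>
      LinearIndependent ℝ fun j => Ψ.1 (τ j)) fun τ hτ => ?_
  have hc : Continuous fun (z : (C(Om, X) × (I → C(Om, ℝ))) × (Fin m → Om)) (j : Fin m) =>
    z.1.1 (z.2 j) := by fun_prop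
  exact (hc.continuousAt (x := (Φ, τ))).eventually_mem
    ((isOpen_setOfPred_linearIndependent (𝕜 := ℝ)).mem_nhds (hΦ τ hτ))

theorem cantor [CompleteSpace X] [Nonempty I] (hX : ¬ FiniteDimensional ℝ X)
    (W : ℕ → Set (X × (I → ℝ))) (ho : ∀ n, IsOpen (W n)) (hd : ∀ n, Dense (W n))
    {U : Set (X × (I → ℝ))} (hU : IsOpen U) (hne : U.Nonempty) :
    ∃ (Φ : C(Om, X) × (I → C(Om, ℝ))) (c : ℕ → I), LinearIndependent ℝ (fun σ => Φ.1 σ) ∧
      ∀ σ (e : X × (I → ℝ)), e.1 = Φ.1 σ → (∀ n, e.2 (c n) = Φ.2 (c n) σ) →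
        e ∈ U ∧ ∀ n, e ∈ W n := by
  classical
  obtain ⟨Φ, c, h⟩ := strong_baire (fun k => {Φ : C(Om, X) × (I → C(Om, ℝ)) | ∀ σ, evl Φ σ ∈ W k} ∩
    {Φ | ∀ τ : Fin k.unpair.2 → Om,
      τ ∈ {τ : Fin k.unpair.2 → Om | Function.Injective fun j => rs k.unpair.1 (τ j)} →
      LinearIndependent ℝ fun j => Φ.1 (τ j)})
    (fun k => (all_open (ho k)).inter (li_open _ _)) (fun k => by
      refine (step_dense k.unpair.1 (fun N => (Set.pi univ fun _ => W k) ∩
        (Pi.map fun _ => Prod.fst) ⁻¹' {v : (Fin N → Bool) → X | LinearIndependent ℝ v})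
        fun N => ?_).mono ?_
      · exact (dense_pi univ fun _ _ => hd k).inter_of_isOpen_left ((li_dense hX _).preimage
          (IsOpenMap.piMap (fun _ => isOpenMap_fst) (by simp)))
          (isOpen_set_pi finite_univ fun _ _ => ho k)
      · rintro _ ⟨N, hN, v, ⟨h1, h2⟩, rfl⟩
        refine ⟨fun σ => h1 _ (mem_univ _), fun τ hτ => ?_⟩
        exact LinearIndependent.comp h2 (fun j => rs N (τ j)) fun i j hij =>
          hτ (rs_eq.2 (cylinder_anti _ hN (rs_eq.1 hij))))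
    (all_open hU) (by
      obtain ⟨p, hp⟩ := hne
      exact ⟨(ContinuousMap.const _ p.1, fun i => ContinuousMap.const _ (p.2 i)), fun _ => hp⟩)
  refine ⟨Φ, c, linearIndependent_iff_finset_linearIndependent.2 fun T => ?_, fun σ e h1 h2 => ?_⟩
  · have h1 : ∀ᶠ n in atTop, ∀ a ∈ T, ∀ b ∈ T, a ≠ b → a ∉ cylinder b n := by
      simp only [eventually_all_finset]
      intro a _ b _
      by_cases h : a = b
      · simp [h]
      · filter_upwards [ev_not_cyl h] with n hn _ using hn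
    obtain ⟨n, hn⟩ := h1.exists
    have h2 := ((h Φ rfl fun _ => rfl).2 (Nat.pair n T.card)).2
    rw [Nat.unpair_pair] at h2
    have h3 := h2 (fun j => T.equivFin.symm j) fun i j hij => by
      by_contra hc
      exact hn _ (T.equivFin.symm i).2 _ (T.equivFin.symm j).2
        (fun e => hc (T.equivFin.symm.injective (Subtype.ext e))) (rs_eq.1 hij)
    exact (linearIndependent_equiv T.equivFin.symm).1 h3
  · let Ψ : C(Om, X) × (I → C(Om, ℝ)) :=
      (Φ.1, fun i => if i ∈ range c then Φ.2 i else ContinuousMap.const _ (e.2 i))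
    have h3 := h Ψ rfl fun n => if_pos ⟨n, rfl⟩
    have h4 : evl Ψ σ = e := by
      refine Prod.ext h1.symm (funext fun i => ?_)
      by_cases hi : i ∈ range c
      · simp only [evl, Ψ, if_pos hi]
        obtain ⟨n, rfl⟩ := hi
        exact (h2 n).symm
      · simp only [evl, Ψ, if_neg hi]; rfl
    exact ⟨h4 ▸ h3.1 σ, fun n => h4 ▸ (h3.2 n).1 σ⟩

end Pool.Agent.H.MP_e733ef_an
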