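import Mathlib
import Pool.Agent.H.MP_e733ef_an.A

set_option autoImplicit false

namespace Pool.Agent.H.MP_e733ef_an

open Set Filter Topology Cardinal Pool.Agent.H.MP_17c4bf_an

abbrev J := (continuum.{0}).ord.ToType

theorem card_J : #J = continuum := mk_ord_toType _

instance : Nonempty J := mk_ne_zero_iff.1 (by rw [card_J]; exact continuum_ne_zero)

theorem card_Iic (a : J) : #(Iic a) < continuum := by
  rw [← Iio_insert]
  exact mk_insert_le.trans_lt (add_lt_of_lt aleph0_le_continuum (mk_Iio_toType_ord_lt a)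
    (one_lt_aleph0.trans aleph0_lt_continuum))

theorem enum (T : Type) [Nonempty T] (hT : #T ≤ continuum) :
    ∃ e : J → T, ∀ t (S : Set J), S.Countable → ∃ a, e a = t ∧ ∀ s ∈ S, s < a := by
  have hI : #(T × ℝ) ≤ #J := by
    rw [card_J, mk_prod, lift_id, lift_id, mk_real]
    calc #T * continuum ≤ continuum * continuum := by gcongr
      _ = continuum := continuum_mul_self
  obtain ⟨ι⟩ := (Cardinal.le_def _ _).1 hI
  refine ⟨fun a => (Function.invFun ι a).1, fun t S hS => ?_⟩
  obtain ⟨c, hc⟩ := countable_iff_exists_subset_range.1 hS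
  have h1 : #(⋃ n : ℕ, Iic (c n)) < continuum := by
    refine mk_iUnion_le_sum_mk.trans_lt ((sum_lt_prod _ (fun _ => continuum)
      fun n => card_Iic (c n)).trans_eq ?_)
    simp
  obtain ⟨r, hr⟩ : ∃ r : ℝ, ι (t, r) ∉ ⋃ n : ℕ, Iic (c n) := by
    by_contra h
    push Not at h
    have : Function.Injective fun r : ℝ => (⟨ι (t, r), h r⟩ : ⋃ n : ℕ, Iic (c n)) :=
      fun r s e => (Prod.ext_iff.1 (ι.injective (congrArg Subtype.val e))).2
    exact absurd (mk_real.symm.trans_le (mk_le_of_injective this)) (not_le.2 h1)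
  refine ⟨ι (t, r), congrArg Prod.fst (Function.leftInverse_invFun ι.injective (t, r)),
    fun s hs => ?_⟩
  obtain ⟨n, rfl⟩ := hc hs
  exact not_le.1 fun h => hr (mem_iUnion.2 ⟨n, h⟩)

theorem card_arrow {A B : Type} [Countable A] (hB : #B ≤ continuum) : #(A → B) ≤ continuum := by
  rw [← power_def]
  calc #B ^ #A ≤ continuum ^ #A := power_le_power_right hB
    _ ≤ continuum ^ aleph0 := power_le_power_left continuum_ne_zero mk_le_aleph0
    _ = continuum := continuum_power_aleph0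

theorem card_prod {A B : Type} (hA : #A ≤ continuum) (hB : #B ≤ continuum) :
    #(A × B) ≤ continuum := by
  rw [mk_prod, lift_id, lift_id]
  calc #A * #B ≤ continuum * continuum := by gcongr
    _ = continuum := continuum_mul_self

theorem card_cm {B : Type} [MetricSpace B] (hB : #B ≤ continuum) : #C(Om, B) ≤ continuum := by
  refine (mk_le_of_injective (f := fun (φ : C(Om, B)) (s : Σ n, Fin n → Bool) => φ (ex s.2))
    fun φ ψ h => ?_).trans (card_arrow hB)
  have hd : DenseRange fun s : Σ n, Fin n → Bool => ex s.2 := by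
    refine dense_iff_inter_open.2 fun U hU ⟨a, ha⟩ => ?_
    obtain ⟨n, hn⟩ := cyl_basis a (hU.mem_nhds ha)
    exact ⟨_, hn (ex_rs n a), ⟨n, rs n a⟩, rfl⟩
  exact ContinuousMap.coe_injective (hd.equalizer φ.continuous ψ.continuous h)

theorem li_of_wo {K V : Type} [LinearOrder K] [AddCommGroup V] [Module ℝ V] (x : K → V)
    (h : ∀ a, x a ∉ Submodule.span ℝ (x '' Iio a)) : LinearIndependent ℝ x := by
  refine linearIndependent_iff_finset_linearIndependent.2 fun s => ?_
  change LinearIndepOn ℝ x (s : Set K)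
  induction s using Finset.induction_on_max with
  | empty => simp
  | insert a s ha ih =>
    rw [Finset.coe_insert]
    exact ih.insert fun h' => h a (Submodule.span_mono (image_mono fun b hb => ha b hb) h')

theorem exists_unbdd {V : Type} [AddCommGroup V] [Module ℝ V] {e : ℕ → V}
    (he : LinearIndependent ℝ e) : ∃ ψ : V →ₗ[ℝ] ℝ, ¬ BddAbove (range fun n => ψ (e n)) := by
  obtain ⟨ψ, hψ⟩ := LinearMap.exists_extend
    ((Finsupp.linearCombination ℝ fun n : ℕ => (n : ℝ)).comp he.repr)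
  refine ⟨ψ, ?_⟩
  have : ∀ n, ψ (e n) = n := fun n => by
    have h1 := LinearMap.congr_fun hψ ⟨e n, Submodule.subset_span ⟨n, rfl⟩⟩
    rw [LinearMap.comp_apply, LinearMap.comp_apply, he.repr_eq_single n _ rfl] at h1
    simpa using h1
  rintro ⟨b, hb⟩
  obtain ⟨n, hn⟩ := exists_nat_gt b
  exact absurd (this n ▸ hb ⟨n, rfl⟩) (not_le.2 hn)

theorem exists_graph {X : Type} [NormedAddCommGroup X] [NormedSpace ℝ X] [CompleteSpace X]
    (hX : ¬ FiniteDimensional ℝ X) (hc : #X ≤ continuum) :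
    ∃ E : Submodule ℝ (X × (J → ℝ)),
      (∀ W : ℕ → Set (X × (J → ℝ)), (∀ n, IsOpen (W n)) → (∀ n, Dense (W n)) →
        ∀ U, IsOpen U → U.Nonempty → ∃ e ∈ E, e ∈ U ∧ ∀ n, e ∈ W n) ∧
      (∀ e ∈ E, e.1 = 0 → e = 0) ∧
      ∀ B : Set E, Bornology.IsVonNBounded ℝ B → FiniteDimensional ℝ (Submodule.span ℝ B) := by
  classical
  let T1 := {t : (ℕ → J) × C(Om, X) × (ℕ → C(Om, ℝ)) // LinearIndependent ℝ fun σ => t.2.1 σ}
  haveI : Nonempty T1 := by
    obtain ⟨Φ, c, h, -⟩ := cantor (I := J) hX (fun _ => univ) (fun _ => isOpen_univ)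
      (fun _ => dense_univ) isOpen_univ univ_nonempty
    exact ⟨⟨(c, Φ.1, fun _ => 0), h⟩⟩
  obtain ⟨e1, he1⟩ := enum T1 ((mk_subtype_le _).trans (card_prod (card_arrow card_J.le)
    (card_prod (card_cm hc) (card_arrow (card_cm mk_real.le)))))
  obtain ⟨e2, he2⟩ := enum (ℕ → (J →₀ ℝ)) (card_arrow (by
    rw [mk_finsupp_of_infinite', card_J, mk_real, max_self]))
  obtain ⟨σ, hσ⟩ := Pool.Agent.H.MP_aca27d_an.wf_choice (I := J) (A := Om)
    (fun t f a => (e1 t).1.2.1 a ∉ Submodule.span ℝ ((fun u => (e1 u).1.2.1 (f u)) '' Iio t))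
    (fun t f g a h h1 => by
      rwa [show (fun u => (e1 u).1.2.1 (g u)) '' Iio t = (fun u => (e1 u).1.2.1 (f u)) '' Iio t from
        image_congr fun u hu => by rw [h u hu]])
    (fun t f _ => by
      by_contra h
      push Not at h
      have h1 : LinearIndependent ℝ fun a =>
          (⟨_, h a⟩ : Submodule.span ℝ ((fun u => (e1 u).1.2.1 (f u)) '' Iio t)) :=
        LinearIndependent.of_comp (Submodule.subtype _) (e1 t).2
      have h2 := h1.cardinal_le_rank.trans ((rank_span_le _).trans mk_image_le)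
      rw [card_om] at h2
      exact absurd h2 (not_le.2 (mk_Iio_toType_ord_lt t)))
  let x : J → X := fun a => (e1 a).1.2.1 (σ a)
  have hx : LinearIndependent ℝ x := li_of_wo x hσ
  let ψ : J → (J →₀ ℝ) →ₗ[ℝ] ℝ := fun i =>
    if h : ∃ ψ : (J →₀ ℝ) →ₗ[ℝ] ℝ, ¬ BddAbove (range fun n => ψ (e2 i n)) then h.choose else 0
  let M : J → J → ℝ := fun a i => if i < a then
    (if h : ∃ n, (e1 a).1.1 n = i then (e1 a).1.2.2 (Nat.find h) (σ a) else 0)
    else ψ i (Finsupp.single a 1)
  let Λ : (J →₀ ℝ) →ₗ[ℝ] X × (J → ℝ) := Finsupp.linearCombination ℝ fun a => (x a, M a)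
  refine ⟨LinearMap.range Λ, fun W ho hd U hU hne => ?_, ?_, fun B hB => ?_⟩
  · obtain ⟨Φ, c, h1, h2⟩ := cantor hX W ho hd hU hne
    obtain ⟨a, h3, h4⟩ := he1 ⟨(c, Φ.1, fun n => Φ.2 (c n)), h1⟩ (range c) (countable_range c)
    refine ⟨(x a, M a), ⟨Finsupp.single a 1, by simp [Λ]⟩, h2 (σ a) _ (by simp [x, h3]) fun n => ?_⟩
    have h5 : ∃ m, (e1 a).1.1 m = c n := ⟨n, by rw [h3]⟩
    have h6 := Nat.find_spec h5
    simp only [M, if_pos (h4 _ ⟨n, rfl⟩), dif_pos h5]
    generalize Nat.find h5 = m at h6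
    rw [h3] at h6 ⊢
    simp only at h6 ⊢
    rw [h6]
  · rintro _ ⟨u, rfl⟩ h
    have h1 : Finsupp.linearCombination ℝ x u = 0 := by
      rw [← h]
      exact (Finsupp.apply_linearCombination ℝ (LinearMap.fst ℝ X (J → ℝ))
        (fun a => (x a, M a)) u).symm
    rw [linearIndependent_iff.1 hx u h1, map_zero]
  · by_contra hfin
    obtain ⟨b, hb, hs, hi⟩ := exists_linearIndependent ℝ B
    have hinf : b.Infinite := fun h => hfin (hs ▸ FiniteDimensional.span_of_finite ℝ h)
    let v : ℕ → LinearMap.range Λ := fun n => hinf.natEmbedding b n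
    have hv : LinearIndependent ℝ v := hi.comp _ (hinf.natEmbedding b).injective
    choose u hu using fun n => (v n).2
    have hu' : LinearIndependent ℝ u := by
      refine LinearIndependent.of_comp Λ ?_
      have : Λ ∘ u = (LinearMap.range Λ).subtype ∘ v := funext hu
      rw [this]
      exact hv.map' _ (Submodule.ker_subtype _)
    obtain ⟨i, h1, h2⟩ := he2 u (⋃ n, (u n).support) (countable_iUnion fun n => Finset.countable_toSet _)
    have h3 : ∃ ψ : (J →₀ ℝ) →ₗ[ℝ] ℝ, ¬ BddAbove (range fun n => ψ (e2 i n)) :=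
      h1 ▸ exists_unbdd hu'
    have h4 : ¬ BddAbove (range fun n => ψ i (u n)) := by
      simp only [ψ, dif_pos h3]
      rw [← h1]; exact h3.choose_spec
    have h5 : ∀ n, ((v n : X × (J → ℝ))).2 i = ψ i (u n) := by
      intro n
      rw [← hu n]
      conv_rhs => rw [← (u n).sum_single]
      simp only [Λ, Finsupp.linearCombination_apply, Finsupp.sum, Prod.snd_sum, Finset.sum_apply,
        map_sum]
      refine Finset.sum_congr rfl fun a ha => ?_
      have h6 : ¬ i < a := not_lt.2 (h2 a (mem_iUnion.2 ⟨n, ha⟩)).le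
      simp only [Prod.smul_snd, Pi.smul_apply, M, if_neg h6]
      rw [← map_smul, Finsupp.smul_single_one]
    let φ : LinearMap.range Λ →L[ℝ] ℝ := (ContinuousLinearMap.proj i).comp
      ((ContinuousLinearMap.snd ℝ X (J → ℝ)).comp (LinearMap.range Λ).subtypeL)
    have h7 := (NormedSpace.isVonNBounded_iff ℝ).1 (hB.image φ)
    refine h4 (h7.bddAbove.mono ?_)
    rintro _ ⟨n, rfl⟩
    exact ⟨v n, hb (hinf.natEmbedding b n).2, h5 n⟩

end Pool.Agent.H.MP_e733ef_an
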