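import Mathlib

set_option autoImplicit false

namespace Pool.Agent.H.MP_e733ef_an

open Set

def FrechetAt {E : Type} [AddCommGroup E] [Module ℝ E] [TopologicalSpace E] (f : E → ℝ) (x : E) :
    Prop :=
  ∃ φ : E →L[ℝ] ℝ, ∀ B : Set E, Bornology.IsVonNBounded ℝ B → ∀ ε : ℝ, 0 < ε →
    ∃ δ : ℝ, 0 < δ ∧ ∀ t : ℝ, 0 < |t| → |t| < δ →
      ∀ v ∈ B, |(f (x + t • v) - f x) / t - φ v| ≤ ε

def Asplund (E : Type) [AddCommGroup E] [Module ℝ E] [TopologicalSpace E] : Prop :=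
  ∀ D : Set E, IsOpen D → Convex ℝ D → D.Nonempty → ∀ f : E → ℝ, ConvexOn ℝ D f →
    ContinuousOn f D → ∃ G : Set E, G ⊆ D ∧ IsGδ G ∧ D ⊆ closure G ∧ ∀ x ∈ G, FrechetAt f x

end Pool.Agent.H.MP_e733ef_an
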