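import Mathlib
import Pool.Agent.H.MP_e733ef_an.B
import Pool.Agent.H.MP_e733ef_an.Defs
import Pool.Agent.H.MP_17c4bf_an.A

set_option autoImplicit false

namespace Pool.Agent.H.MP_e733ef_an

open Set Filter Topology Cardinal Pool.Agent.H.MP_17c4bf_an
open scoped ENNReal

theorem FrechetAt.gateaux {E : Type} [AddCommGroup E] [Module ℝ E] [TopologicalSpace E]
    [ContinuousSMul ℝ E] {f : E → ℝ} {x : E} (h : FrechetAt f x) : GateauxAt f x := by
  obtain ⟨φ, hφ⟩ := h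
  refine ⟨φ, fun v => Metric.tendsto_nhdsWithin_nhds.2 fun ε hε => ?_⟩
  obtain ⟨δ, hδ, h1⟩ := hφ {v} (Bornology.isVonNBounded_singleton v) (ε / 2) (half_pos hε)
  refine ⟨δ, hδ, fun t ht h2 => ?_⟩
  rw [Real.dist_eq] at h2 ⊢
  exact (h1 t (abs_pos.2 ht) (by simpa using h2) v rfl).trans_lt (half_lt_self hε)

theorem baire_of {P : Type} [TopologicalSpace P] {E : Set P}
    (h : ∀ W : ℕ → Set P, (∀ n, IsOpen (W n)) → (∀ n, Dense (W n)) →
      ∀ U, IsOpen U → U.Nonempty → ∃ e ∈ E, e ∈ U ∧ ∀ n, e ∈ W n) : Dense E ∧ BaireSpace E := by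
  have hd : Dense E := dense_iff_inter_open.2 fun U hU hne => by
    obtain ⟨e, h1, h2, -⟩ := h (fun _ => univ) (fun _ => isOpen_univ) (fun _ => dense_univ) U hU hne
    exact ⟨e, h2, h1⟩
  refine ⟨hd, ⟨fun f ho hf => dense_iff_inter_open.2 fun U hU ⟨y, hy⟩ => ?_⟩⟩
  choose W hW hf' using fun n => isOpen_induced_iff.1 (ho n)
  obtain ⟨V, hV, rfl⟩ := isOpen_induced_iff.1 hU
  obtain ⟨e, h1, h2, h3⟩ := h W hW (fun n => by
    have := Subtype.dense_iff.1 (hf n)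
    rw [← hf' n] at this
    exact (hd.mono this).of_closure.mono (image_preimage_subset _ _)) V hV ⟨y, hy⟩
  exact ⟨⟨e, h1⟩, h2, mem_iInter.2 fun n => hf' n ▸ h3 n⟩

theorem sep_dual {E : Type} [AddCommGroup E] [Module ℝ E] [TopologicalSpace E]
    [IsTopologicalAddGroup E] [ContinuousSMul ℝ E] (δ : ℕ → E →L[ℝ] ℝ)
    (hδ : ∀ e, (∀ n, δ n e = 0) → e = 0)
    (hB : ∀ B : Set E, Bornology.IsVonNBounded ℝ B → FiniteDimensional ℝ (Submodule.span ℝ B)) :
    TopologicalSpace.SeparableSpace (E →L[ℝ] ℝ) := by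
  rw [← TopologicalSpace.isSeparable_univ_iff]
  refine (((countable_range δ).isSeparable.span (R := ℝ)).closure).mono fun φ _ => ?_
  rw [mem_closure_iff_nhds_zero]
  intro U hU
  obtain ⟨⟨B, V⟩, ⟨h1, h2⟩, h3⟩ := ContinuousLinearMap.hasBasis_nhds_zero.mem_iff.1 hU
  haveI := hB B h1
  let ρ : (E →L[ℝ] ℝ) →ₗ[ℝ] (Submodule.span ℝ B →ₗ[ℝ] ℝ) :=
    { toFun := fun ψ => (ψ : E →ₗ[ℝ] ℝ).comp (Submodule.span ℝ B).subtype
      map_add' := fun _ _ => rfl
      map_smul' := fun _ _ => rfl }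
  have h4 : Submodule.span ℝ (ρ '' range δ) = ⊤ := by
    refine Submodule.span_eq_top_of_ne_zero fun z hz => ?_
    by_contra hc
    push Not at hc
    exact hz (Subtype.ext (hδ z fun n => hc _ ⟨_, ⟨n, rfl⟩, rfl⟩))
  rw [Submodule.span_image] at h4
  obtain ⟨ψ, h5, h6⟩ := (h4 ▸ Submodule.mem_top : ρ φ ∈ (Submodule.span ℝ (range δ)).map ρ)
  refine ⟨ψ, h5, h3 fun x hx => ?_⟩
  have h7 : ψ x = φ x := LinearMap.congr_fun h6 ⟨x, Submodule.subset_span hx⟩
  simpa [h7] using mem_of_mem_nhds h2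

abbrev Yi := lp (fun _ : ℕ => ℝ) ∞

theorem yi_card : #Yi ≤ continuum :=
  (mk_le_of_injective (f := fun (y : Yi) (n : ℕ) => y n) fun _ _ h => lp.ext h).trans
    (card_arrow mk_real.le)

theorem yi_inf : ¬ FiniteDimensional ℝ Yi := by
  intro h
  refine Module.Finite.not_linearIndependent_of_infinite (R := ℝ)
    (fun n : ℕ => (lp.single ∞ n (1 : ℝ) : Yi)) ?_
  refine LinearIndependent.of_comp (LinearMap.pi fun n => lp.evalₗ (𝕜 := ℝ) (fun _ : ℕ => ℝ) ∞ n) ?_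
  exact Pi.linearIndependent_single_one ℕ ℝ

theorem yi_abs (y : Yi) (n : ℕ) : |y n| ≤ ‖y‖ := lp.norm_apply_le_norm ENNReal.top_ne_zero y n

noncomputable def ls (y : Yi) : ℝ := limsup (fun n => y n) atTop

theorem ls_ev (y : Yi) {ε : ℝ} (hε : 0 < ε) : ∀ᶠ n in atTop, y n < ls y + ε :=
  eventually_lt_of_limsup_lt (lt_add_of_pos_right _ hε)
    (isBoundedUnder_of ⟨‖y‖, fun n => (abs_le.1 (yi_abs y n)).2⟩)

theorem ls_fr (y : Yi) {ε : ℝ} (hε : 0 < ε) : ∃ᶠ n in atTop, ls y - ε < y n :=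
  frequently_lt_of_lt_limsup (isCoboundedUnder_le_of_le atTop fun n => (abs_le.1 (yi_abs y n)).1)
    (sub_lt_self _ hε)

theorem ls_le {y : Yi} {c : ℝ} (h : ∀ ε, 0 < ε → ∀ᶠ n in atTop, y n ≤ c + ε) : ls y ≤ c := by
  refine le_of_forall_pos_le_add fun ε hε => ?_
  obtain ⟨n, h1, h2⟩ := ((ls_fr y (half_pos hε)).and_eventually (h _ (half_pos hε))).exists
  linarith

theorem le_ls {y : Yi} {c : ℝ} (h : ∀ ε, 0 < ε → ∃ᶠ n in atTop, c - ε ≤ y n) : c ≤ ls y := by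
  refine le_of_forall_pos_le_add fun ε hε => ?_
  obtain ⟨n, h1, h2⟩ := ((h _ (half_pos hε)).and_eventually (ls_ev y (half_pos hε))).exists
  linarith

theorem ls_cl : CL ls 1 := by
  refine ⟨⟨convex_univ, fun x _ y _ a b ha hb hab => ls_le fun ε hε => ?_⟩, fun x y => ?_⟩
  · filter_upwards [ls_ev x hε, ls_ev y hε] with n h1 h2
    change a * x n + b * y n ≤ a * ls x + b * ls y + ε
    have h3 := mul_le_mul_of_nonneg_left h1.le ha
    have h4 := mul_le_mul_of_nonneg_left h2.le hb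
    have : ε = a * ε + b * ε := by rw [← add_mul, hab, one_mul]
    linarith
  · rw [one_mul, sub_le_iff_le_add]
    refine ls_le fun ε hε => ?_
    filter_upwards [ls_ev y hε] with n h1
    have : x n - y n ≤ ‖x - y‖ := (abs_le.1 (yi_abs (x - y) n)).2
    linarith

theorem ls_q (x : Yi) : ∃ v, 1 ≤ q ls x v := by
  classical
  obtain ⟨φ, hφ, h1⟩ := extraction_forall_of_frequently
    fun k : ℕ => ls_fr x (Nat.one_div_pos_of_nat (n := k))
  let v : Yi := ⟨(range fun k => φ (2 * k)).indicator 1, memℓp_infty ⟨1, by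
    rintro _ ⟨a, rfl⟩
    by_cases h : a ∈ range fun k => φ (2 * k) <;> simp [h]⟩⟩
  have key : ∀ (j : ℕ) (ε : ℝ), 0 < ε → ∀ P : ℕ → Prop, (∀ k, ls x - ε ≤ x (φ (2 * k + j)) →
      P (φ (2 * k + j))) → ∃ᶠ n in atTop, P n := by
    intro j ε hε P hP
    obtain ⟨K, hK⟩ := exists_nat_one_div_lt hε
    refine frequently_atTop.2 fun N => ⟨φ (2 * (max N K) + j), ?_, hP _ ?_⟩
    · exact le_trans (by omega) hφ.le_apply
    · have h2 := h1 (2 * (max N K) + j)
      have h3 := Nat.one_div_le_one_div (α := ℝ) (show K ≤ 2 * (max N K) + j by omega)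
      linarith
  have h2 : 1 ≤ d ls x v := le_d fun t ht => by
    have : ls x + t ≤ ls (x + t • v) := le_ls fun ε hε => key 0 ε hε _ fun k hk => by
      change _ ≤ x _ + t * (range fun k => φ (2 * k)).indicator 1 _
      rw [indicator_of_mem (show φ (2 * k + 0) ∈ range fun k => φ (2 * k) from ⟨k, rfl⟩)]
      simp only [Pi.one_apply]
      linarith
    unfold sl
    rw [le_div_iff₀ ht]; linarith
  have h3 : 0 ≤ d ls x (-v) := le_d fun t ht => by
    have : ls x ≤ ls (x + t • -v) := le_ls fun ε hε => key 1 ε hε _ fun k hk => by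
      change _ ≤ x _ + t * -(range fun k => φ (2 * k)).indicator 1 _
      rw [indicator_of_notMem (show φ (2 * k + 1) ∉ range fun k => φ (2 * k) from
        fun ⟨m, hm⟩ => by have := hφ.injective hm; omega)]
      linarith
    unfold sl
    exact div_nonneg (by linarith) ht.le
  exact ⟨v, by unfold q; linarith⟩

theorem q_of_gateaux {E X : Type} [AddCommGroup E] [Module ℝ E] [TopologicalSpace E]
    [NormedAddCommGroup X] [NormedSpace ℝ X] (π : E →L[ℝ] X) (hπ : DenseRange π) {g : X → ℝ}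
    {L : ℝ} (hg : CL g L) {x : E} (h : GateauxAt (g ∘ π) x) (v : X) : q g (π x) v ≤ 0 := by
  obtain ⟨φ, hφ⟩ := h
  have h1 : ∀ e, d g (π x) (π e) = φ e := fun e => by
    refine tendsto_nhds_unique (hg.tendsto_right _ _) ?_
    refine ((hφ e).mono_left (nhdsGT_le_nhdsNE 0)).congr fun t => ?_
    simp [sl]
  refine hg.q_span _ (hπ.mono Submodule.subset_span) ?_ v
  rintro _ ⟨e, rfl⟩
  rw [q, ← map_neg, h1, h1, map_neg, add_neg_cancel]

theorem main : ∃ E : Submodule ℝ (Yi × (J → ℝ)), BaireSpace E ∧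
    TopologicalSpace.SeparableSpace (E →L[ℝ] ℝ) ∧
    ∃ f : E → ℝ, ConvexOn ℝ univ f ∧ Continuous f ∧ ∀ x, ¬ GateauxAt f x := by
  obtain ⟨E, h1, h2, h3⟩ := exists_graph yi_inf yi_card
  obtain ⟨hd, hb⟩ := baire_of (E := (E : Set (Yi × (J → ℝ)))) h1
  let π : E →L[ℝ] Yi := (ContinuousLinearMap.fst ℝ _ _).comp E.subtypeL
  have hπ : DenseRange π :=
    Prod.fst_surjective.denseRange.comp hd.denseRange_val continuous_fst
  refine ⟨E, hb, sep_dual (fun n => (lp.evalCLM ℝ (fun _ : ℕ => ℝ) ∞ n).comp π)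
    (fun e he => Subtype.ext (h2 e e.2 (lp.ext (funext he)))) h3, ls ∘ π,
    by simpa using ls_cl.cvx.comp_linearMap π.toLinearMap, ls_cl.cont.comp π.continuous,
    fun x hx => ?_⟩
  obtain ⟨v, hv⟩ := ls_q (π x)
  linarith [q_of_gateaux π hπ ls_cl hx v]

end Pool.Agent.H.MP_e733ef_an
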